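import Pool.Agent.R783.GF.Base

/-!
# The Gaussian Fisher information functional of lattices is unbounded
-/

set_option autoImplicit false

namespace Pool.Agent.Results.MP_e166ae_gt.Unbounded

open Real MeasureTheory Pool.Agent.R783.GF

/-- Euclidean space -/
abbrev E (d : ℕ) := EuclideanSpace ℝ (Fin d)

/-- the point `∑ i, m i • u i` of the lattice with basis `u` -/
noncomputable def pt {d : ℕ} (u : Fin d → E d) (m : Fin d → ℤ) : E d := ∑ i, (m i : ℝ) • u i

/-- the translated theta function `∑ exp (-π a |p + y|^2)`, sum over the lattice with basis `u` -/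
noncomputable def theta {d : ℕ} (a : ℝ) (u : Fin d → E d) (y : E d) : ℝ :=
  ∑' m : Fin d → ℤ, exp (-(π * a) * ‖pt u m + y‖ ^ 2)

/-- the integral over the ball of radius `R` of `|∇ √θ|^2` -/
noncomputable def FI {d : ℕ} (a R : ℝ) (u : Fin d → E d) : ENNReal :=
  ∫⁻ y in Metric.ball (0 : E d) R,
    ENNReal.ofReal (‖gradient (fun z => √(theta a u z)) y‖ ^ 2)

/-- the basis vectors form a parallelepiped of volume one -/
def Unimod {d : ℕ} (u : Fin d → E d) : Prop := |(Matrix.of (fun i j => u i j)).det| = 1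

theorem norm_grad {d : ℕ} (f : E d → ℝ) (y : E d) : ‖gradient f y‖ = ‖fderiv ℝ f y‖ := by
  unfold gradient
  rw [LinearIsometryEquiv.norm_map]

/-! ### finiteness -/

theorem exists_kappa {d : ℕ} {u : Fin d → E d} (hu : Unimod u) :
    ∃ κ : ℝ, 0 < κ ∧ ∀ m : Fin d → ℤ, κ * ∑ i, ((m i : ℝ)) ^ 2 ≤ ‖pt u m‖ ^ 2 := by
  set A : E d →ₗ[ℝ] E d :=
    { toFun := fun x => ∑ i, x i • u i
      map_add' := by
        intro x y
        simp only [PiLp.add_apply, add_smul, Finset.sum_add_distrib]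
      map_smul' := by
        intro c x
        simp only [PiLp.smul_apply, smul_eq_mul, RingHom.id_apply, Finset.smul_sum, mul_smul] }
    with hA
  have hdet : (Matrix.of (fun i j => u i j)).det ≠ 0 := by
    intro h
    unfold Unimod at hu
    rw [h] at hu
    norm_num at hu
  have hker : LinearMap.ker A = ⊥ := by
    rw [LinearMap.ker_eq_bot']
    intro x hx
    have h1 : Matrix.vecMul (fun i => x i) (Matrix.of (fun i j => u i j)) = 0 := by
      funext j
      have h2 : (A x) j = 0 := by rw [hx]; rfl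
      have h3 : (A x) j = ∑ i, x i * u i j := by
        show (∑ i, x i • u i) j = _
        rw [WithLp.ofLp_sum, Finset.sum_apply]
        rfl
      rw [h3] at h2
      simpa [Matrix.vecMul, dotProduct] using h2
    have h4 := Matrix.eq_zero_of_vecMul_eq_zero hdet h1
    ext i
    exact congrFun h4 i
  obtain ⟨K, hK, hanti⟩ := A.exists_antilipschitzWith hker
  have hK' : (0 : ℝ) < K := hK
  refine ⟨1 / (K : ℝ) ^ 2, by positivity, ?_⟩
  intro m
  set x : E d := WithLp.toLp 2 (fun i => (m i : ℝ)) with hx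
  have h1 : ‖x‖ ≤ K * ‖A x‖ := by
    have := hanti.le_mul_dist x 0
    rwa [dist_zero_right, map_zero, dist_zero_right] at this
  have h2 : A x = pt u m := rfl
  have h3 : ‖x‖ ^ 2 = ∑ i, ((m i : ℝ)) ^ 2 := by
    rw [EuclideanSpace.norm_sq_eq]
    refine Finset.sum_congr rfl (fun i _ => ?_)
    rw [Real.norm_eq_abs, sq_abs]
  rw [← h3, ← h2, one_div, inv_mul_le_iff₀ (by positivity), ← mul_pow]
  exact pow_le_pow_left₀ (norm_nonneg _) h1 2

theorem exp_lip (α β : ℝ) {M : ℝ} (h1 : exp (-α) ≤ M) (h2 : exp (-β) ≤ M) :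
    |exp (-α) - exp (-β)| ≤ M * |α - β| := by
  have hM : 0 ≤ M := (exp_pos _).le.trans h1
  have one : ∀ {α β : ℝ}, exp (-α) ≤ M → exp (-β) ≤ M → α ≤ β →
      |exp (-α) - exp (-β)| ≤ M * |α - β| := by
    intro α β h1 _ h
    have e1 : exp (-β) ≤ exp (-α) := exp_le_exp.mpr (by linarith)
    rw [abs_of_nonneg (by linarith), abs_of_nonpos (by linarith)]
    have e2 : exp (-β) = exp (-α) * exp (-(β - α)) := by rw [← exp_add]; congr 1; ring
    have e3 : 1 - (β - α) ≤ exp (-(β - α)) := by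
      have := add_one_le_exp (-(β - α)); linarith
    have e4 : exp (-α) - exp (-β) = exp (-α) * (1 - exp (-(β - α))) := by rw [e2]; ring
    rw [e4]
    calc exp (-α) * (1 - exp (-(β - α))) ≤ exp (-α) * (β - α) :=
          mul_le_mul_of_nonneg_left (by linarith) (exp_pos _).le
      _ ≤ M * (β - α) := mul_le_mul_of_nonneg_right h1 (by linarith)
      _ = M * -(α - β) := by ring
  rcases le_total α β with h | h
  · exact one h1 h2 h
  · rw [abs_sub_comm, abs_sub_comm α β]
    exact one h2 h1 h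

theorem sq_norm_ge {d : ℕ} (p y : E d) : ‖p‖ ^ 2 / 2 - ‖y‖ ^ 2 ≤ ‖p + y‖ ^ 2 := by
  have h : ‖p‖ ≤ ‖p + y‖ + ‖y‖ := by
    have := norm_sub_le (p + y) y
    simpa using this
  nlinarith [norm_nonneg p, norm_nonneg (p + y), norm_nonneg y, sq_nonneg (‖p + y‖ - ‖y‖)]

/-- the summable majorant -/
theorem summ_pt {d : ℕ} {u : Fin d → E d} (hu : Unimod u) {c : ℝ} (hc : 0 < c) :
    Summable (fun m : Fin d → ℤ => exp (-(c * ‖pt u m‖ ^ 2))) := by
  obtain ⟨κ, hκ, h⟩ := exists_kappa hu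
  have hs := (summ_prod d (fun _ n => exp (-(c * κ * (n : ℝ) ^ 2))) (fun _ _ => (exp_pos _).le)
    (fun _ => summ_gauss (by positivity))).1
  refine Summable.of_nonneg_of_le (fun m => (exp_pos _).le) (fun m => ?_) hs
  rw [← exp_sum]
  apply exp_le_exp.mpr
  rw [Finset.sum_neg_distrib, ← Finset.mul_sum]
  have := mul_le_mul_of_nonneg_left (h m) hc.le
  linarith

theorem term_bd {d : ℕ} (u : Fin d → E d) {c B : ℝ} (hc : 0 < c) (m : Fin d → ℤ)
    {y : E d} (hy : ‖y‖ ≤ B) :
    exp (-(c * ‖pt u m + y‖ ^ 2)) ≤ exp (c * B ^ 2) * exp (-(c / 2 * ‖pt u m‖ ^ 2)) := by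
  rw [← exp_add]
  apply exp_le_exp.mpr
  have h1 := mul_le_mul_of_nonneg_left (sq_norm_ge (pt u m) y) hc.le
  have h2 : ‖y‖ ^ 2 ≤ B ^ 2 := pow_le_pow_left₀ (norm_nonneg _) hy 2
  have h3 := mul_le_mul_of_nonneg_left h2 hc.le
  linarith

theorem theta_lip {d : ℕ} {u : Fin d → E d} (hu : Unimod u) {c B : ℝ} (hc : 0 < c)
    (hB : 0 ≤ B) : ∃ K : ℝ, 0 ≤ K ∧ ∀ y z : E d, ‖y‖ ≤ B → ‖z‖ ≤ B →
      |(∑' m : Fin d → ℤ, exp (-(c * ‖pt u m + y‖ ^ 2))) -
        ∑' m : Fin d → ℤ, exp (-(c * ‖pt u m + z‖ ^ 2))| ≤ K * ‖y - z‖ := by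
  have hs : ∀ y : E d, ‖y‖ ≤ B → Summable (fun m : Fin d → ℤ => exp (-(c * ‖pt u m + y‖ ^ 2))) := by
    intro y hy
    refine Summable.of_nonneg_of_le (fun m => (exp_pos _).le) (fun m => term_bd u hc m hy)
      ((summ_pt hu (by positivity)).mul_left _)
  -- majorant of the Lipschitz constants
  have hU : Summable (fun m : Fin d → ℤ => 2 * c * (1 + 4 / c + B) * exp (c * B ^ 2) *
      exp (-(c / 4 * ‖pt u m‖ ^ 2))) := (summ_pt hu (by positivity)).mul_left _
  have hterm : ∀ (y z : E d), ‖y‖ ≤ B → ‖z‖ ≤ B → ∀ m : Fin d → ℤ,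
      ‖exp (-(c * ‖pt u m + y‖ ^ 2)) - exp (-(c * ‖pt u m + z‖ ^ 2))‖ ≤
      2 * c * (1 + 4 / c + B) * exp (c * B ^ 2) * exp (-(c / 4 * ‖pt u m‖ ^ 2)) * ‖y - z‖ := by
    intro y z hy hz m
    set p := pt u m
    have h1 := exp_lip (c * ‖p + y‖ ^ 2) (c * ‖p + z‖ ^ 2) (term_bd u hc m hy)
      (term_bd u hc m hz)
    rw [Real.norm_eq_abs]
    refine h1.trans ?_
    have h2 : |c * ‖p + y‖ ^ 2 - c * ‖p + z‖ ^ 2| ≤ 2 * c * (‖p‖ + B) * ‖y - z‖ := by
      have e1 : c * ‖p + y‖ ^ 2 - c * ‖p + z‖ ^ 2 =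
          c * ((‖p + y‖ - ‖p + z‖) * (‖p + y‖ + ‖p + z‖)) := by ring
      rw [e1, abs_mul, abs_mul, abs_of_pos hc]
      have e2 : |‖p + y‖ - ‖p + z‖| ≤ ‖y - z‖ := by
        have := abs_norm_sub_norm_le (p + y) (p + z)
        simpa using this
      have e3 : |‖p + y‖ + ‖p + z‖| ≤ 2 * (‖p‖ + B) := by
        rw [abs_of_nonneg (by positivity)]
        have := norm_add_le p y
        have := norm_add_le p z
        linarith
      calc c * (|‖p + y‖ - ‖p + z‖| * |‖p + y‖ + ‖p + z‖|)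
          ≤ c * (‖y - z‖ * (2 * (‖p‖ + B))) := by
            apply mul_le_mul_of_nonneg_left _ hc.le
            exact mul_le_mul e2 e3 (abs_nonneg _) (norm_nonneg _)
        _ = _ := by ring
    have h3 : (‖p‖ + B) * exp (-(c / 2 * ‖p‖ ^ 2)) ≤ (1 + 4 / c + B) * exp (-(c / 4 * ‖p‖ ^ 2)) := by
      have e1 := lin_exp (c := c / 2) (by positivity) ‖p‖
      rw [abs_of_nonneg (norm_nonneg _)] at e1
      have e2 : exp (-(c / 2 * ‖p‖ ^ 2)) ≤ exp (-(c / 4 * ‖p‖ ^ 2)) := by
        apply exp_le_exp.mpr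
        have : 0 ≤ c / 4 * ‖p‖ ^ 2 := by positivity
        linarith
      have e3 : 1 + 2 / (c / 2) = 1 + 4 / c := by field_simp; norm_num
      have e4 : c / 2 / 2 = c / 4 := by ring
      rw [e3, e4] at e1
      have e5 := mul_le_mul_of_nonneg_left e2 hB
      nlinarith
    calc exp (c * B ^ 2) * exp (-(c / 2 * ‖p‖ ^ 2)) * |c * ‖p + y‖ ^ 2 - c * ‖p + z‖ ^ 2|
        ≤ exp (c * B ^ 2) * exp (-(c / 2 * ‖p‖ ^ 2)) * (2 * c * (‖p‖ + B) * ‖y - z‖) :=
          mul_le_mul_of_nonneg_left h2 (by positivity)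
      _ = exp (c * B ^ 2) * (2 * c) * ‖y - z‖ * ((‖p‖ + B) * exp (-(c / 2 * ‖p‖ ^ 2))) := by ring
      _ ≤ exp (c * B ^ 2) * (2 * c) * ‖y - z‖ * ((1 + 4 / c + B) * exp (-(c / 4 * ‖p‖ ^ 2))) :=
          mul_le_mul_of_nonneg_left h3 (by positivity)
      _ = _ := by ring
  refine ⟨∑' m : Fin d → ℤ, 2 * c * (1 + 4 / c + B) * exp (c * B ^ 2) *
      exp (-(c / 4 * ‖pt u m‖ ^ 2)), tsum_nonneg (fun m => by positivity), ?_⟩
  intro y z hy hz
  rw [← (hs y hy).tsum_sub (hs z hz), ← tsum_mul_right, ← Real.norm_eq_abs]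
  exact tsum_of_norm_bounded (hU.mul_right _).hasSum (hterm y z hy hz)

theorem theta_eq {d : ℕ} (a : ℝ) (u : Fin d → E d) (y : E d) :
    theta a u y = ∑' m : Fin d → ℤ, exp (-(π * a * ‖pt u m + y‖ ^ 2)) := by
  unfold theta
  refine tsum_congr (fun m => ?_)
  congr 1; ring

theorem theta_ge {d : ℕ} {u : Fin d → E d} (hu : Unimod u) {a B : ℝ} (ha : 0 < a)
    {y : E d} (hy : ‖y‖ ≤ B) : exp (-(π * a * B ^ 2)) ≤ theta a u y := by
  have hc : 0 < π * a := by positivity
  rw [theta_eq]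
  have hs : Summable (fun m : Fin d → ℤ => exp (-(π * a * ‖pt u m + y‖ ^ 2))) :=
    Summable.of_nonneg_of_le (fun m => (exp_pos _).le) (fun m => term_bd u hc m hy)
      ((summ_pt hu (by positivity)).mul_left _)
  have h1 := hs.le_tsum 0 (fun m _ => (exp_pos _).le)
  refine le_trans ?_ h1
  have : pt u 0 = 0 := by simp [pt]
  rw [this, zero_add]
  apply exp_le_exp.mpr
  have h2 : ‖y‖ ^ 2 ≤ B ^ 2 := pow_le_pow_left₀ (norm_nonneg _) hy 2
  have := mul_le_mul_of_nonneg_left h2 hc.le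
  linarith

theorem FI_lt_top {d : ℕ} {u : Fin d → E d} (hu : Unimod u) {a R : ℝ} (ha : 0 < a)
    (hR : 0 < R) : FI a R u < ⊤ := by
  have hc : 0 < π * a := by positivity
  obtain ⟨K, hK, hlip⟩ := theta_lip hu hc (B := R + 1) (by linarith)
  set ρ := √(exp (-(π * a * (R + 1) ^ 2))) with hρ
  have hρ0 : 0 < ρ := Real.sqrt_pos.mpr (exp_pos _)
  have hgrad : ∀ y ∈ Metric.ball (0 : E d) R,
      ‖gradient (fun z => √(theta a u z)) y‖ ≤ K / ρ := by
    intro y hy
    rw [mem_ball_zero_iff] at hy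
    rw [norm_grad]
    apply norm_fderiv_le_of_lip' ℝ (by positivity)
    have hnb : ∀ᶠ x in nhds y, ‖x‖ < R + 1 := by
      have : Metric.ball (0 : E d) (R + 1) ∈ nhds y :=
        Metric.isOpen_ball.mem_nhds (by rw [mem_ball_zero_iff]; linarith)
      filter_upwards [this] with x hx
      rwa [mem_ball_zero_iff] at hx
    filter_upwards [hnb] with x hx
    have h1 := hlip x y hx.le (by linarith)
    rw [← theta_eq, ← theta_eq] at h1
    have t1 := theta_ge hu ha hx.le
    have t2 := theta_ge hu ha (show ‖y‖ ≤ R + 1 by linarith)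
    have t0 := exp_pos (-(π * a * (R + 1) ^ 2))
    have s1 : ρ ≤ √(theta a u x) := Real.sqrt_le_sqrt t1
    have s2 : ρ ≤ √(theta a u y) := Real.sqrt_le_sqrt t2
    have e1 : (√(theta a u x) - √(theta a u y)) * (√(theta a u x) + √(theta a u y)) =
        theta a u x - theta a u y := by
      have q1 := Real.mul_self_sqrt (show 0 ≤ theta a u x by linarith)
      have q2 := Real.mul_self_sqrt (show 0 ≤ theta a u y by linarith)
      linear_combination q1 - q2
    have e2 : |√(theta a u x) - √(theta a u y)| * ρ ≤ |theta a u x - theta a u y| := by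
      rw [← e1, abs_mul]
      apply mul_le_mul_of_nonneg_left _ (abs_nonneg _)
      rw [abs_of_nonneg (by positivity)]
      linarith
    rw [Real.norm_eq_abs, div_mul_eq_mul_div, le_div_iff₀ hρ0]
    exact e2.trans h1
  unfold FI
  calc ∫⁻ y in Metric.ball (0 : E d) R,
        ENNReal.ofReal (‖gradient (fun z => √(theta a u z)) y‖ ^ 2)
      ≤ ∫⁻ y in Metric.ball (0 : E d) R, ENNReal.ofReal ((K / ρ) ^ 2) := by
        apply setLIntegral_mono measurable_const
        intro y hy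
        apply ENNReal.ofReal_le_ofReal
        exact pow_le_pow_left₀ (norm_nonneg _) (hgrad y hy) 2
    _ = ENNReal.ofReal ((K / ρ) ^ 2) * volume (Metric.ball (0 : E d) R) := by
        rw [setLIntegral_const]
    _ < ⊤ := ENNReal.mul_lt_top ENNReal.ofReal_lt_top measure_ball_lt_top

/-! ### unboundedness -/

/-- the rectangular lattice with side lengths `s i` -/
noncomputable def diag {d : ℕ} (s : Fin d → ℝ) : Fin d → E d :=
  fun i => EuclideanSpace.single i (s i)

theorem unimod_diag {d : ℕ} {s : Fin d → ℝ} (h : ∏ i, s i = 1) : Unimod (diag s) := by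
  have : Matrix.of (fun i j => diag s i j) = Matrix.diagonal s := by
    ext i j
    simp only [Matrix.of_apply, diag, PiLp.single_apply, Matrix.diagonal_apply]
    by_cases hij : i = j
    · simp [hij]
    · rw [if_neg hij, if_neg (fun h => hij h.symm)]
  unfold Unimod
  rw [this, Matrix.det_diagonal, h]
  norm_num

theorem norm_diag {d : ℕ} (s : Fin d → ℝ) (m : Fin d → ℤ) (y : E d) :
    ‖pt (diag s) m + y‖ ^ 2 = ∑ i, (s i * m i + y i) ^ 2 := by
  rw [EuclideanSpace.norm_sq_eq]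
  refine Finset.sum_congr rfl (fun j _ => ?_)
  rw [Real.norm_eq_abs, sq_abs]
  congr 1
  rw [PiLp.add_apply]
  congr 1
  unfold pt
  rw [WithLp.ofLp_sum, Finset.sum_apply]
  rw [Finset.sum_eq_single j]
  · simp [diag, mul_comm]
  · intro i _ hij
    simp [diag, hij.symm]
  · intro h; exact absurd (Finset.mem_univ j) h

theorem theta_diag {d : ℕ} {a : ℝ} (ha : 0 < a) {s : Fin d → ℝ} (hs : ∀ i, s i ≠ 0) (y : E d) :
    theta a (diag s) y = ∏ i, g (π * a) (s i) (y i) := by
  have hc : 0 < π * a := by positivity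
  rw [theta_eq]
  have h := (summ_prod d (fun i n => exp (-(π * a * (s i * n + y i) ^ 2)))
    (fun _ _ => (exp_pos _).le) (fun i => summ_g hc (hs i) (y i))).2
  unfold g
  rw [← h]
  refine tsum_congr (fun m => ?_)
  rw [norm_diag, ← exp_sum, Finset.sum_neg_distrib, Finset.mul_sum]

theorem g_pos {c s : ℝ} (hc : 0 < c) (hs : s ≠ 0) (t : ℝ) : 0 < g c s t :=
  (summ_g hc hs t).tsum_pos (fun _ => (exp_pos _).le) 0 (exp_pos _)

theorem g_ge_one {c : ℝ} (hc : 0 < c) {R t : ℝ} (ht : |t| ≤ R) : exp (-(c * R ^ 2)) ≤ g c 1 t := by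
  refine le_trans ?_ ((summ_g hc one_ne_zero t).le_tsum 0 (fun m _ => (exp_pos _).le))
  apply exp_le_exp.mpr
  have : t ^ 2 ≤ R ^ 2 := by
    rw [← sq_abs t]; exact pow_le_pow_left₀ (abs_nonneg _) ht 2
  have := mul_le_mul_of_nonneg_left this hc.le
  simpa using this

theorem g_ge_N {c : ℝ} (hc : 0 < c) {R t : ℝ} (ht : |t| ≤ R) {N : ℕ} (hN : 0 < N) :
    (N : ℝ) * exp (-(c * (1 + R) ^ 2)) ≤ g c (1 / N) t := by
  have hN' : (0 : ℝ) < N := by exact_mod_cast hN
  have hs : (1 / (N : ℝ)) ≠ 0 := by positivity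
  have h1 := (summ_g hc hs t).sum_le_tsum
    ((Finset.range N).image (fun j : ℕ => (j : ℤ))) (fun m _ => (exp_pos _).le)
  refine le_trans ?_ h1
  rw [Finset.sum_image (fun i _ j _ h => by exact_mod_cast h)]
  have h2 : ∀ j ∈ Finset.range N, exp (-(c * (1 + R) ^ 2)) ≤
      exp (-(c * (1 / (N : ℝ) * ((j : ℤ) : ℝ) + t) ^ 2)) := by
    intro j hj
    apply exp_le_exp.mpr
    have hj' : (j : ℝ) < N := by exact_mod_cast Finset.mem_range.mp hj
    have e1 : |1 / (N : ℝ) * ((j : ℤ) : ℝ) + t| ≤ 1 + R := by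
      refine (abs_add_le _ _).trans (add_le_add ?_ ht)
      rw [Int.cast_natCast, abs_of_nonneg (by positivity), one_div, inv_mul_le_iff₀ hN']
      linarith
    have e2 : (1 / (N : ℝ) * ((j : ℤ) : ℝ) + t) ^ 2 ≤ (1 + R) ^ 2 := by
      rw [← sq_abs (1 / (N : ℝ) * ((j : ℤ) : ℝ) + t)]
      exact pow_le_pow_left₀ (abs_nonneg _) e1 2
    have := mul_le_mul_of_nonneg_left e2 hc.le
    linarith
  have h3 := Finset.sum_le_sum h2
  rw [Finset.sum_const, Finset.card_range, nsmul_eq_mul] at h3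
  exact h3

/-- side lengths `N, 1/N, 1, ..., 1` -/
noncomputable def sides (n N : ℕ) : Fin (n + 2) → ℝ :=
  Fin.cons (N : ℝ) (Fin.cons (1 / (N : ℝ)) (fun _ => 1))

theorem sides_ne {n N : ℕ} (hN : 0 < N) (i : Fin (n + 2)) : sides n N i ≠ 0 := by
  have hN' : (N : ℝ) ≠ 0 := by exact_mod_cast hN.ne'
  unfold sides
  refine Fin.cases ?_ (fun i => ?_) i
  · simpa using hN'
  · refine Fin.cases ?_ (fun i => ?_) i
    · simpa using hN'
    · simp

theorem sides_prod {n N : ℕ} (hN : 0 < N) : ∏ i, sides n N i = 1 := by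
  have hN' : (N : ℝ) ≠ 0 := by exact_mod_cast hN.ne'
  rw [Fin.prod_univ_succ, Fin.prod_univ_succ]
  simp [sides, hN']

/-- the part of the theta function that does not involve the coordinate `0` -/
noncomputable def Hh (c : ℝ) (n N : ℕ) (y : E (n + 2)) : ℝ :=
  ∏ i : Fin (n + 1), g c (sides n N i.succ) (y i.succ)

theorem Hh_ge {c : ℝ} (hc : 0 < c) {n N : ℕ} (hN : 0 < N) {R : ℝ} {y : E (n + 2)}
    (hy : ‖y‖ ≤ R) :
    (N : ℝ) * (exp (-(c * (1 + R) ^ 2)) * exp (-(c * R ^ 2)) ^ n) ≤ Hh c n N y := by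
  have hyi : ∀ i, |y i| ≤ R := by
    intro i
    have := PiLp.norm_apply_le y i
    rw [Real.norm_eq_abs] at this
    exact this.trans hy
  unfold Hh
  rw [Fin.prod_univ_succ, ← mul_assoc]
  have s1 : sides n N (Fin.succ 0) = 1 / N := by simp [sides]
  have s2 : ∀ i : Fin n, sides n N i.succ.succ = 1 := by intro i; simp [sides]
  apply mul_le_mul
  · rw [s1]; exact g_ge_N hc (hyi _) hN
  · calc exp (-(c * R ^ 2)) ^ n = ∏ _i : Fin n, exp (-(c * R ^ 2)) := by simp
      _ ≤ _ := by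
        apply Finset.prod_le_prod
        · intro i _; exact (exp_pos _).le
        · intro i _
          rw [s2]; exact g_ge_one hc (hyi _)
  · positivity
  · exact (g_pos hc (sides_ne hN _) _).le

theorem theta_split {a : ℝ} (ha : 0 < a) {n N : ℕ} (hN : 0 < N) (y : E (n + 2)) :
    theta a (diag (sides n N)) y = g (π * a) N (y 0) * Hh (π * a) n N y := by
  rw [theta_diag ha (sides_ne hN), Fin.prod_univ_succ]
  rfl

theorem diff_theta {a : ℝ} (ha : 0 < a) {n N : ℕ} (hN : 0 < N) (y : E (n + 2)) :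
    DifferentiableAt ℝ (fun z => theta a (diag (sides n N)) z) y := by
  have hc : 0 < π * a := by positivity
  have e : (fun z => theta a (diag (sides n N)) z) =
      fun z : E (n + 2) => ∏ i, g (π * a) (sides n N i) (z i) := by
    funext z; exact theta_diag ha (sides_ne hN) z
  rw [e]
  have hi : ∀ i : Fin (n + 2), DifferentiableAt ℝ
      (fun z : E (n + 2) => g (π * a) (sides n N i) (z i)) y := by
    intro i
    have h1 : DifferentiableAt ℝ (g (π * a) (sides n N i)) (y i) :=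
      (hasDeriv_g hc (sides_ne hN i) (y i)).differentiableAt
    have h2 : DifferentiableAt ℝ (fun z : E (n + 2) => z i) y :=
      (EuclideanSpace.proj (𝕜 := ℝ) i).differentiableAt
    exact h1.comp y h2
  exact (HasFDerivAt.finsetProd (fun i _ => (hi i).hasFDerivAt)).differentiableAt

/-- lower bound for the gradient -/
theorem grad_ge {a : ℝ} (ha : 0 < a) {n N : ℕ} (hN : 0 < N) (y : E (n + 2)) :
    (g' (π * a) N (y 0)) ^ 2 * Hh (π * a) n N y / (4 * g (π * a) N (y 0)) ≤
      ‖gradient (fun z => √(theta a (diag (sides n N)) z)) y‖ ^ 2 := by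
  have hc : 0 < π * a := by positivity
  have hN' : (N : ℝ) ≠ 0 := by exact_mod_cast hN.ne'
  set f : E (n + 2) → ℝ := fun z => √(theta a (diag (sides n N)) z) with hf
  set G := g (π * a) N (y 0) with hG
  set H := Hh (π * a) n N y with hH
  have hG0 : 0 < G := g_pos hc hN' _
  have hH0 : 0 < H := by
    rw [hH]; unfold Hh
    exact Finset.prod_pos (fun i _ => g_pos hc (sides_ne hN _) _)
  have hth : theta a (diag (sides n N)) y = G * H := theta_split ha hN y
  have hdf : DifferentiableAt ℝ f y :=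
    (diff_theta ha hN y).sqrt (by rw [hth]; positivity)
  set e : E (n + 2) := EuclideanSpace.single 0 1 with he
  have hline : (fun t : ℝ => f (y + t • e)) = fun t : ℝ => √(g (π * a) N (y 0 + t) * H) := by
    funext t
    rw [hf]
    show √(theta a (diag (sides n N)) (y + t • e)) = _
    rw [theta_split ha hN]
    congr 2
    · congr 1
      simp [he]
    · rw [hH]
      unfold Hh
      refine Finset.prod_congr rfl (fun i _ => ?_)
      congr 1
      simp [he]
  have hder : HasDerivAt (fun t : ℝ => √(g (π * a) N (y 0 + t) * H))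
      (g' (π * a) N (y 0) * H / (2 * √(G * H))) 0 := by
    have h1 : HasDerivAt (fun t : ℝ => g (π * a) N (y 0 + t)) (g' (π * a) N (y 0)) 0 := by
      have := hasDeriv_g hc hN' (y 0 + 0)
      have h2 := this.comp_const_add (y 0) 0
      simpa using h2
    have h3 := (h1.mul_const H).sqrt (by simp only [add_zero]; exact (mul_pos hG0 hH0).ne')
    simpa using h3
  have hld : fderiv ℝ f y e = g' (π * a) N (y 0) * H / (2 * √(G * H)) := by
    rw [← hdf.lineDeriv_eq_fderiv]
    unfold lineDeriv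
    rw [hline]
    exact hder.deriv
  have hn : |g' (π * a) N (y 0) * H / (2 * √(G * H))| ≤ ‖gradient f y‖ := by
    rw [norm_grad, ← hld, ← Real.norm_eq_abs]
    have := (fderiv ℝ f y).le_opNorm e
    have he1 : ‖e‖ = 1 := by rw [he]; simp
    rwa [he1, mul_one] at this
  have h4 := pow_le_pow_left₀ (abs_nonneg _) hn 2
  rw [sq_abs] at h4
  refine le_trans (le_of_eq ?_) h4
  rw [div_pow, mul_pow, mul_pow, Real.sq_sqrt (mul_pos hG0 hH0).le]
  field_simp
  norm_num

/-- **Unboundedness** -/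
theorem unbounded (n : ℕ) {a R : ℝ} (ha : 0 < a) (hR : 0 < R) {C : ENNReal} (hC : C ≠ ⊤) :
    ∃ u : Fin (n + 2) → E (n + 2), Unimod u ∧ C < FI a R u := by
  have hc : 0 < π * a := by positivity
  set c := π * a with hcdef
  set δ := c * (R / 4) * exp (-(c * (R / 2) ^ 2)) with hδ
  have hδ0 : 0 < δ := by positivity
  set c2 := δ ^ 2 / 8 * (exp (-(c * (1 + R) ^ 2)) * exp (-(c * R ^ 2)) ^ n) with hc2
  have hc20 : 0 < c2 := by positivity
  set V : Set (E (n + 2)) := Metric.ball 0 R ∩ {y | R / 4 < y 0 ∧ y 0 < R / 2} with hV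
  have hVo : IsOpen V := by
    apply Metric.isOpen_ball.inter
    apply IsOpen.and
    · exact isOpen_lt continuous_const (by fun_prop)
    · exact isOpen_lt (by fun_prop) continuous_const
  have hVne : V.Nonempty := by
    refine ⟨EuclideanSpace.single 0 (3 * R / 8), ?_, ?_, ?_⟩
    · rw [mem_ball_zero_iff]
      simp only [PiLp.norm_single, Real.norm_eq_abs]
      rw [abs_of_pos (by positivity)]
      linarith
    · simp; linarith
    · simp; linarith
  have hVpos : 0 < volume V := hVo.measure_pos volume hVne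
  -- choice of N
  obtain ⟨N1, hN1⟩ := exists_nat_ge (max 2 (2 * R))
  obtain ⟨N2, hN2⟩ := exists_nat_ge (max (16 * Z2 / (c * δ)) (4 * Z2 / c))
  obtain ⟨N3, hN3⟩ := ENNReal.exists_nat_mul_gt (a := ENNReal.ofReal c2 * volume V)
    (mul_ne_zero (by rw [Ne, ENNReal.ofReal_eq_zero]; linarith) hVpos.ne') hC
  set N := max (max N1 N2) N3 with hN
  have hNN1 : (N1 : ℝ) ≤ N := by exact_mod_cast (le_max_left _ _).trans (le_max_left _ _)
  have hNN2 : (N2 : ℝ) ≤ N := by exact_mod_cast (le_max_right _ _).trans (le_max_left _ _)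
  have hN2' : (2 : ℝ) ≤ N := ((le_max_left _ _).trans hN1).trans hNN1
  have hNR : 2 * R ≤ N := ((le_max_right _ _).trans hN1).trans hNN1
  have hNpos : 0 < N := by
    have : (0 : ℝ) < N := by linarith
    exact_mod_cast this
  have hNr : (N : ℝ) ≠ 0 := by exact_mod_cast hNpos.ne'
  have hA1 : 16 * Z2 / (c * δ) ≤ N := ((le_max_left _ _).trans hN2).trans hNN2
  have hA2 : 4 * Z2 / c ≤ N := ((le_max_right _ _).trans hN2).trans hNN2
  have hNsq : (N : ℝ) ≤ (N : ℝ) ^ 2 := by nlinarith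
  refine ⟨diag (sides n N), unimod_diag (sides_prod hNpos), ?_⟩
  have hpt : ∀ y ∈ V, (N : ℝ) * c2 ≤
      ‖gradient (fun z => √(theta a (diag (sides n N)) z)) y‖ ^ 2 := by
    intro y hy
    obtain ⟨hyb, hy1, hy2⟩ := hy
    rw [mem_ball_zero_iff] at hyb
    refine le_trans ?_ (grad_ge ha hNpos y)
    rw [← hcdef]
    set t := y 0
    have ht0 : 0 < t := by linarith
    have habs : |t| ≤ R := by rw [abs_of_pos ht0]; linarith
    have b1 := tail_bd (φ := fun x => exp (-(c * x ^ 2))) (K := 1 / c) (R := R) (T := N) (t := t)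
      (by positivity) (fun x hx => phi1 hc x hx) hN2' hNR habs (summ_g hc hNr t)
    have b2 := tail_bd (φ := fun x => -(2 * c * x) * exp (-(c * x ^ 2))) (K := 4 / c) (R := R)
      (T := N) (t := t) (by positivity) (fun x hx => phi2 hc x hx) hN2' hNR habs
      (summ_g' hc hNr t)
    have b1' : |g c N t - exp (-(c * t ^ 2))| ≤ 1 := by
      refine le_trans b1 ?_
      rw [div_le_one (by positivity)]
      calc 4 * (1 / c) * Z2 = 4 * Z2 / c := by ring
        _ ≤ N := hA2
        _ ≤ (N : ℝ) ^ 2 := hNsq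
    have b2' : |g' c N t - -(2 * c * t) * exp (-(c * t ^ 2))| ≤ δ := by
      refine le_trans b2 ?_
      rw [div_le_iff₀ (by positivity)]
      have := mul_le_mul_of_nonneg_left (hA1.trans hNsq) hδ0.le
      refine le_trans (le_of_eq ?_) this
      field_simp
      ring
    have hexp1 : exp (-(c * t ^ 2)) ≤ 1 := by
      rw [exp_le_one_iff]
      have : 0 ≤ c * t ^ 2 := by positivity
      linarith
    have hg2 : g c N t ≤ 2 := by
      have := (abs_le.mp b1').2
      linarith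
    have hg0 : 0 < g c N t := g_pos hc hNr t
    have hlow : 2 * δ ≤ 2 * c * t * exp (-(c * t ^ 2)) := by
      have e1 : exp (-(c * (R / 2) ^ 2)) ≤ exp (-(c * t ^ 2)) := by
        apply exp_le_exp.mpr
        have : t ^ 2 ≤ (R / 2) ^ 2 := pow_le_pow_left₀ ht0.le hy2.le 2
        have := mul_le_mul_of_nonneg_left this hc.le
        linarith
      have e2 : 2 * c * (R / 4) ≤ 2 * c * t := by nlinarith
      calc 2 * δ = 2 * c * (R / 4) * exp (-(c * (R / 2) ^ 2)) := by rw [hδ]; ring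
        _ ≤ 2 * c * t * exp (-(c * t ^ 2)) := mul_le_mul e2 e1 (exp_pos _).le (by positivity)
    have hg' : g' c N t ≤ -δ := by
      have := (abs_le.mp b2').2
      linarith
    have hg'2 : δ ^ 2 ≤ (g' c N t) ^ 2 := by nlinarith
    have hHg := Hh_ge hc (n := n) hNpos hyb.le
    have hHpos : 0 ≤ Hh c n N y := le_trans (by positivity) hHg
    rw [le_div_iff₀ (by positivity)]
    calc (N : ℝ) * c2 * (4 * g c N t) ≤ (N : ℝ) * c2 * (4 * 2) := by
          apply mul_le_mul_of_nonneg_left _ (by positivity)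
          linarith
      _ = δ ^ 2 * ((N : ℝ) * (exp (-(c * (1 + R) ^ 2)) * exp (-(c * R ^ 2)) ^ n)) := by
          rw [hc2]; ring
      _ ≤ (g' c N t) ^ 2 * Hh c n N y := mul_le_mul hg'2 hHg (by positivity) (by positivity)
  unfold FI
  calc C < N3 * (ENNReal.ofReal c2 * volume V) := hN3
    _ ≤ (N : ENNReal) * (ENNReal.ofReal c2 * volume V) := by
        apply mul_le_mul_left
        exact_mod_cast (le_max_right _ _)
    _ = ENNReal.ofReal (N * c2) * volume V := by
        rw [ENNReal.ofReal_mul (p := (N : ℝ)) (by positivity), ENNReal.ofReal_natCast, mul_assoc]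
    _ = ∫⁻ _y in V, ENNReal.ofReal (N * c2) := by rw [setLIntegral_const]
    _ ≤ ∫⁻ y in V, ENNReal.ofReal
          (‖gradient (fun z => √(theta a (diag (sides n N)) z)) y‖ ^ 2) := by
        apply setLIntegral_mono' hVo.measurableSet
        intro y hy
        exact ENNReal.ofReal_le_ofReal (hpt y hy)
    _ ≤ _ := lintegral_mono_set Set.inter_subset_left

/-- For every dimension `d = n + 2 ≥ 2`, every `a > 0` and every `R > 0`, the functional is finite
at every lattice of covolume one and unbounded on these lattices; so no lattice of covolume one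
maximises it. -/
theorem result : ∀ (n : ℕ) (a R : ℝ), 0 < a → 0 < R →
    (∀ u : Fin (n + 2) → E (n + 2), Unimod u → FI a R u < ⊤) ∧
    (∀ C : ENNReal, C < ⊤ → ∃ u : Fin (n + 2) → E (n + 2), Unimod u ∧ C < FI a R u) ∧
    (∀ u : Fin (n + 2) → E (n + 2), Unimod u →
      ∃ u' : Fin (n + 2) → E (n + 2), Unimod u' ∧ FI a R u < FI a R u') := by
  intro n a R ha hR
  refine ⟨fun u hu => FI_lt_top hu ha hR, fun C hC => unbounded n ha hR hC.ne, ?_⟩
  intro u hu
  exact unbounded n ha hR (FI_lt_top hu ha hR).ne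

end Pool.Agent.Results.MP_e166ae_gt.Unbounded
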